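import Pool.Agent.N964.GX.EK3
import Pool.Agent.N964.GV.Eng
import Pool.Agent.N964.GV.Ps

/-!
# Zero-free half-planes of `L(E/K, s)` and the summatory function of its inverse

Let `E` be an elliptic curve over `ℚ` of conductor `N`, `K` an abelian number field of degree `n` and conductor prime
to `N` (given by its group `G` of Dirichlet characters), and `L(s) = L(E/K, s)`, an entire function of degree `2 n` with
critical line `Re s = 1`. Let

  `1 / L(s) = ∑ μ(m) m^(-s)`

(`μ` is the convolution of the analogues of the Moebius function of the twists of `E` by the characters of `K`). We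
prove, for every `θ` with `1/2 ≤ θ < 1`: `L(E/K, s)` has no zeros with `Re s > θ + 1/2` if and only if

  `|∑_(m ≤ x) μ(m)| ≤ x^(θ + 1/2) exp(C W(θ, x))`    (`x ≥ 3`)

for some constant `C`, equivalently (normalised) `|∑_(m ≤ x) μ(m) / √m| ≤ x^θ exp(C W(θ, x))`, where

  `W(1/2, x) = (log x)^(2n/(2n+1)) / log log x`,
  `W(θ, x) = (log x)^(2n(1-θ)/(θ+2n(1-θ))) (log log x)^4`  for `θ > 1/2`.

For `θ = 1/2` this is a criterion for the Riemann hypothesis for `L(E/K, s)`. Known was the criterion with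
`x^(θ+1/2+ε)` (Littlewood's theorem for zeta) and, by the classical pointwise bound for `1 / L`,
`x^(θ+1/2) exp(C log x / log log x)`.

Proof. (Modules `Pool.Agent.N964.GX`; the same theorem for zeta is `MP_a499ba_nt.MertensBound`, for `K = ℚ` it is
`MP_553913_nt.MertensBound`.) For an L-function of degree `k` (here `k = 2 n`) with the Ramanujan bound:

1. (Explicit formula.) A contour integral of `L'/L` times `(cosh(l w) - 1) / (w² - s²)`, a kernel which is nonpositive at
   all zeros on the line, bounds `Re L'/L` at distance `s` from the critical line by a sum over the prime powers up to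
   `e^l` and the contribution `k log t` of the gamma factors. Integration over `s` gives
   `log 1/|L(1/2 + δ + it)| ≤ (k log t / l) log(1 + 1/(l δ)) + |prime polynomial| + O(log l + log(1 + 1/(lδ)))`.
2. (Moments.) `l = log T / V`, and `V` is chosen for every `t` as small as possible such that the pieces of the prime
   polynomial are small compared with `V`; high moments of the pieces bound the measure of the `t` for which `V` is
   large. So the mean of `1/|L(1/2 + δ + it)|` over `[0, T]` is at most `exp(C / (δ^k log(1/δ)^(k+1)))`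
   for `log T ≤ δ^(-k-2)`.
3. (Perron's formula) on the line `1/2 + δ` with `δ = (log x)^(-1/(k+1)) / log log x`; the exponent is
   `(log x)^(k/(k+1)) / log log x`.

For `θ > 1/2` the kernel is replaced by
`(s (e^(l w) - 1) - w (1 - e^(-l s))) / ((w² - s²) (cosh(l s) - 1))` plus an odd term; its real part is nonnegative in the
left half-plane (Phragmén-Lindelöf principle), so at all zeros, and the smaller coefficients of the prime polynomial on
the line `θ` give the better exponent (modules `Pool.Agent.N964.GW`, `Pool.Agent.N964.GV`; for zeta: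
`MP_5a4862_nt.MertensHalfPlanes`).

The structure of L-functions used is closed under products (helper 999), so the theorem for `L(E/K, s)` follows from the
properties of the twists (helper 97). With helpers 40, 50, 97, 157, 186, 263, 279, 342, 344, 394, 413, 424, 490, 499,
521, 558, 607, 608, 645, 669, 702, 707, 749, 776, 862, 878, 885, 935, 951, 971, 999; the analytic properties of the
twists of newforms are those of the starting modules `Pool.Agent.W388`, `W440`, `W108` and others.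
-/

set_option autoImplicit false

open Complex MatrixGroups CongruenceSubgroup
open UpperHalfPlane hiding I

namespace Pool.Agent.Results.MP_fb225e_nt.MertensBound

/-! ### Elliptic curves over `ℚ` and abelian number fields -/

/-- The coefficient `a_p` of `E : y² = x³ + a x + b` at a prime `p ∤ 2 (4a³ + 27b²)`: `p` minus the
number of pairs `(x, y)` modulo `p` with `y² ≡ x³ + a x + b (mod p)`. -/
noncomputable def ap (a b : ℤ) (p : ℕ) : ℤ :=
  (p : ℤ) - (((Finset.range p ×ˢ Finset.range p).filter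
    (fun xy : ℕ × ℕ => (p : ℤ) ∣ (xy.2 : ℤ) ^ 2 -
      ((xy.1 : ℤ) ^ 3 + a * (xy.1 : ℤ) + b))).card : ℤ)

/-- The `n`-th Fourier coefficient of `f`. -/
noncomputable def coef {N : ℕ} (f : CuspForm (Gamma0 N : Subgroup (GL (Fin 2) ℝ)) 2) (n : ℕ) : ℂ :=
  (qExpansion 1 f).coeff n

/-- `f ∈ S_2(Γ₀(N))` is the newform of the elliptic curve `E : y² = x³ + a x + b` of conductor `N` and
root number `w`: the Fourier coefficients `c(n)` of `f` are real with `c(1) = 1`, they satisfy the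
Hecke relations `c(mn) = c(m) c(n)` for coprime `m`, `n` and `c(p^(j+2)) = c(p) c(p^(j+1)) - p c(p^j)`
(without the last term if `p ∣ N`), `f(-1/(Nτ)) = -w N τ² f(τ)`, `c(p) = a_p(E)` for all primes
`p ∤ 2 (4a³ + 27b²)`, `|c(p)| ≤ 2 √p` for all `p ∤ N` (Hasse) and `c(p) = 0, 1, -1` for `p ∣ N`.
By the modularity theorem (Wiles, Taylor-Wiles, Breuil-Conrad-Diamond-Taylor) it exists for every `E`. -/
structure IsFormOf (a b : ℤ) (N : ℕ) (f : CuspForm (Gamma0 N : Subgroup (GL (Fin 2) ℝ)) 2) (w : ℝ) :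
    Prop where
  one : coef f 1 = 1
  real : ∀ n, (coef f n).im = 0
  mul : ∀ m n : ℕ, Nat.Coprime m n → coef f (m * n) = coef f m * coef f n
  pow : ∀ p j : ℕ, p.Prime → coef f (p ^ (j + 2)) = coef f p * coef f (p ^ (j + 1)) -
      (if p ∣ N then 0 else (p : ℂ) * coef f (p ^ j))
  sign : w = 1 ∨ w = -1
  fricke : ∀ τ τ' : ℍ, (τ' : ℂ) * ((N : ℂ) * (τ : ℂ)) = -1 →
    f τ' = -(w : ℂ) * (N : ℂ) * (τ : ℂ) ^ 2 * f τ
  points : ∀ p : ℕ, p.Prime → ¬ (p : ℤ) ∣ 2 * (4 * a ^ 3 + 27 * b ^ 2) → coef f p = (ap a b p : ℂ)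
  good : ∀ p : ℕ, p.Prime → ¬ p ∣ N → ‖coef f p‖ ≤ 2 * Real.sqrt p
  bad : ∀ p : ℕ, p.Prime → p ∣ N → coef f p = 0 ∨ coef f p = 1 ∨ coef f p = -1

/-- The L-series of the twist of `E` by `χ` modulo `q`, for `Re s > 3/2`: `∑ c(n) χ(n) n^(-s)`. -/
noncomputable def series {N : ℕ} (f : CuspForm (Gamma0 N : Subgroup (GL (Fin 2) ℝ)) 2) {q : ℕ}
    (χ : DirichletCharacter ℂ q) (s : ℂ) : ℂ :=
  ∑' n : ℕ, coef f (n + 1) * χ ((n + 1 : ℕ) : ZMod q) * ((n + 1 : ℕ) : ℂ) ^ (-s)

/-- `L = L(E/K, s)`, where `K` is the abelian number field with the group `G` of Dirichlet characters: `L` is entire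
and, for `Re s > 3/2`, it is the product over `χ` in `G` of the L-series of the twists of `E` by the primitive
character associated with `χ`. -/
def IsLFunction {M : ℕ} (G : Subgroup (DirichletCharacter ℂ M)) [Fintype G] {N : ℕ}
    (f : CuspForm (Gamma0 N : Subgroup (GL (Fin 2) ℝ)) 2) (L : ℂ → ℂ) : Prop :=
  Differentiable ℂ L ∧ ∀ s : ℂ, 3 / 2 < s.re →
    L s = ∏ χ : G, series f (χ : DirichletCharacter ℂ M).primitiveCharacter s

/-- The Riemann hypothesis: the zeros of `L` with `Re s > 0` (all zeros but the trivial ones at `0, -1, -2, …`) have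
`Re s = 1`. -/
def RH (L : ℂ → ℂ) : Prop := ∀ s : ℂ, 0 < s.re → L s = 0 → s.re = 1

/-- `1 / L(s) = ∑ μ(m) m^(-s)`, absolutely convergent, for `Re s > 3/2`. -/
def IsInverse (L : ℂ → ℂ) (μ : ℕ → ℂ) : Prop :=
  ∀ s : ℂ, 3 / 2 < s.re → Summable (fun m : ℕ => μ (m + 1) * ((m + 1 : ℕ) : ℂ) ^ (-s)) ∧
    L s * ∑' m : ℕ, μ (m + 1) * ((m + 1 : ℕ) : ℂ) ^ (-s) = 1

/-- The exponent in the bound. -/
noncomputable def W (n : ℕ) (θ x : ℝ) : ℝ :=
  if θ = 1 / 2 then Real.log x ^ (2 * n / (2 * n + 1) : ℝ) / Real.log (Real.log x)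
  else Real.log x ^ (2 * n * (1 - θ) / (θ + 2 * n * (1 - θ))) * Real.log (Real.log x) ^ 4

/-- **The theorem.** Let `L(s) = L(E/K, s)` be the L-function of an elliptic curve over `ℚ` over an abelian number field
`K` of degree `n` and of conductor prime to that of `E` (it exists and is unique) and let `μ` be the coefficients of
`1 / L` (they exist). For every `θ` with `1/2 ≤ θ < 1`, `L` has no zeros with `Re s > θ + 1/2` if and only if
`|∑_(m ≤ x) μ(m)| ≤ x^(θ + 1/2) exp(C W(n, θ, x))` for some `C`, and if and only if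
`|∑_(m ≤ x) μ(m) / √m| ≤ x^θ exp(C W(n, θ, x))` for some `C`. For `θ = 1/2` this is the Riemann hypothesis for `L`. -/
theorem result : ∀ (a b : ℤ) (N : ℕ) [NeZero N] (f : CuspForm (Gamma0 N : Subgroup (GL (Fin 2) ℝ)) 2) (w : ℝ),
    4 * a ^ 3 + 27 * b ^ 2 ≠ 0 → IsFormOf a b N f w →
    ∀ (M : ℕ) [NeZero M] (G : Subgroup (DirichletCharacter ℂ M)) [Fintype G], Nat.Coprime M N →
    ∃ L : ℂ → ℂ, IsLFunction G f L ∧ (∀ L' : ℂ → ℂ, IsLFunction G f L' → L' = L) ∧ (∃ μ : ℕ → ℂ, IsInverse L μ) ∧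
      (RH L ↔ ∀ s : ℂ, 1 < s.re → L s ≠ 0) ∧
      ∀ μ : ℕ → ℂ, IsInverse L μ → ∀ n : ℕ, Fintype.card G = n → ∀ θ : ℝ, 1 / 2 ≤ θ → θ < 1 →
        ((∀ s : ℂ, θ + 1 / 2 < s.re → L s ≠ 0) ↔ ∃ C : ℝ, ∀ x : ℝ, 3 ≤ x →
          ‖∑ m ∈ Finset.Icc 1 ⌊x⌋₊, μ m‖ ≤ x ^ (θ + 1 / 2) * Real.exp (C * W n θ x)) ∧
        ((∀ s : ℂ, θ + 1 / 2 < s.re → L s ≠ 0) ↔ ∃ C : ℝ, ∀ x : ℝ, 3 ≤ x →
          ‖∑ m ∈ Finset.Icc 1 ⌊x⌋₊, μ m / ((Real.sqrt m : ℝ) : ℂ)‖ ≤ x ^ θ * Real.exp (C * W n θ x)) := by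
  intro a b N _ f w _ hf M _ G _ hco
  have hf' : Pool.Agent.W169.HF.IsForm N f w :=
    { one := hf.one
      real := hf.real
      mul := hf.mul
      pow := hf.pow
      sign := hf.sign
      fricke := hf.fricke
      good := hf.good
      bad := fun p hp hpN => by
        have h1 : (1 : ℝ) ≤ Real.sqrt p := by
          rw [Real.one_le_sqrt]
          exact_mod_cast hp.one_le
        have h2 : ‖coef f p‖ ≤ 1 := by
          rcases hf.bad p hp hpN with h | h | h <;> simp [h]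
        exact h2.trans h1 }
  obtain ⟨F, hFd, hnice, hser⟩ := Pool.Agent.N964.GX.nice_ab f hf' G hco
  have h32 : ∀ s : ℂ, 3 / 2 < s.re → 1 < (s - 1 / 2).re := by
    intro s hs
    have e : ((1 / 2 : ℂ)).re = 1 / 2 := by norm_num
    rw [Complex.sub_re, e]
    linarith
  have hL : IsLFunction G f (fun s => F (s - 1 / 2)) := by
    refine ⟨hFd.comp (differentiable_id.sub_const _), fun s hs => ?_⟩
    show F (s - 1 / 2) = _
    rw [hser _ (h32 s hs)]
    refine Finset.prod_congr rfl fun χ _ => ?_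
    unfold series
    rw [← Pool.Agent.N964.GX.series_shift
      (fun n => coef f n * (χ : DirichletCharacter ℂ M).primitiveCharacter (n : ZMod _)) s]
    refine LSeries_congr (fun {n} hn => ?_) _
    rw [Pool.Agent.N964.GX.lamf_eq hf.real n]
    show _ * (coef f n / _) = _
    ring
  have e12 : ((1 / 2 : ℂ)).re = 1 / 2 := by norm_num
  have hsh : ∀ θ : ℝ, (∀ s : ℂ, θ + 1 / 2 < s.re → F (s - 1 / 2) ≠ 0) ↔ ∀ s : ℂ, θ < s.re → F s ≠ 0 := by
    intro θ
    constructor
    · intro h s hs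
      have := h (s + 1 / 2) (by rw [Complex.add_re, e12]; linarith)
      simpa using this
    · intro h s hs
      exact h (s - 1 / 2) (by rw [Complex.sub_re, e12]; linarith)
  have hbb : ∀ μ : ℕ → ℂ, IsInverse (fun s => F (s - 1 / 2)) μ → ∀ s : ℂ, 1 < s.re →
      LSeriesSummable (fun n => μ n / ((Real.sqrt n : ℝ) : ℂ)) s ∧
      F s * LSeries (fun n => μ n / ((Real.sqrt n : ℝ) : ℂ)) s = 1 := by
    intro μ hμ s hs
    have h1 : Summable (fun n : ℕ => μ (n + 1) * ((n + 1 : ℕ) : ℂ) ^ (-(s + 1 / 2))) ∧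
      F (s + 1 / 2 - 1 / 2) * ∑' n : ℕ, μ (n + 1) * ((n + 1 : ℕ) : ℂ) ^ (-(s + 1 / 2)) = 1 :=
      hμ (s + 1 / 2) (by rw [Complex.add_re, e12]; linarith)
    rw [← Pool.Agent.N964.GX.summable_shift, ← Pool.Agent.N964.GX.series_shift, add_sub_cancel_right] at h1
    exact h1
  refine ⟨fun s => F (s - 1 / 2), hL, fun L' hL' => ?_, Pool.Agent.N964.GX.nice_inv hnice, ?_,
    fun μ hμ n hn θ h0 h1 => ?_⟩
  · -- uniqueness
    have h3 : L' =ᶠ[nhds (3 : ℂ)] fun s => F (s - 1 / 2) := by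
      have hmem : {s : ℂ | 3 / 2 < s.re} ∈ nhds (3 : ℂ) := by
        refine (isOpen_lt continuous_const Complex.continuous_re).mem_nhds ?_
        show (3 / 2 : ℝ) < ((3 : ℂ)).re
        rw [show ((3 : ℂ)).re = 3 by norm_num]
        norm_num
      filter_upwards [hmem] with z hz
      rw [hL'.2 z hz]
      exact (hL.2 z hz).symm
    have h1 : AnalyticOnNhd ℂ L' Set.univ := fun z _ => hL'.1.analyticAt z
    have h2 : AnalyticOnNhd ℂ (fun s => F (s - 1 / 2)) Set.univ := fun z _ => hL.1.analyticAt z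
    funext s
    exact h1.eqOn_of_preconnected_of_eventuallyEq h2 isPreconnected_univ (Set.mem_univ _) h3 (Set.mem_univ s)
  · obtain ⟨μ, hμ⟩ : ∃ μ : ℕ → ℂ, IsInverse (fun s => F (s - 1 / 2)) μ := Pool.Agent.N964.GX.nice_inv hnice
    have h0 : RH (fun s => F (s - 1 / 2)) ↔ ∃ C : ℝ, ∀ x : ℝ, 3 ≤ x →
        ‖∑ m ∈ Finset.Icc 1 ⌊x⌋₊, μ m / ((Real.sqrt m : ℝ) : ℂ)‖ ≤
          Real.sqrt x * Real.exp (C * Pool.Agent.N964.GX.Qk (2 * Fintype.card G) x) :=
      Pool.Agent.N964.GX.nice_shift hnice hμ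
    have h1 := Pool.Agent.N964.GV.nice_half Pool.Agent.N964.GV.eng hnice (hbb μ hμ) (le_refl (1 / 2 : ℝ)) (by norm_num)
    have h2 := hsh (1 / 2)
    norm_num at h2
    rw [h0, h2]
    have hQ : ∀ x : ℝ, Pool.Agent.N964.GV.Wt (2 * Fintype.card G) (1 / 2) x =
        Pool.Agent.N964.GX.Qk (2 * Fintype.card G) x := by
      intro x
      unfold Pool.Agent.N964.GV.Wt
      rw [if_pos rfl]
      rfl
    simp_rw [hQ, ← Real.sqrt_eq_rpow] at h1
    exact h1.symm
  · have hmain := Pool.Agent.N964.GV.nice_half Pool.Agent.N964.GV.eng hnice (hbb μ hμ) h0 h1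
    have hnorm : (∀ s : ℂ, θ + 1 / 2 < s.re → F (s - 1 / 2) ≠ 0) ↔ ∃ C : ℝ, ∀ x : ℝ, 3 ≤ x →
        ‖∑ m ∈ Finset.Icc 1 ⌊x⌋₊, μ m / ((Real.sqrt m : ℝ) : ℂ)‖ ≤
          x ^ θ * Real.exp (C * Pool.Agent.N964.GV.Wt (2 * Fintype.card G) θ x) := (hsh θ).trans hmain
    have hW : ∀ x : ℝ, Pool.Agent.N964.GV.Wt (2 * Fintype.card G) θ x = W n θ x := by
      intro x
      unfold Pool.Agent.N964.GV.Wt W
      rw [hn]
      by_cases h : θ = 1 / 2
      · rw [if_pos h, if_pos h]
        push_cast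
        rfl
      · rw [if_neg h, if_neg h]
        push_cast
        rfl
    refine ⟨?_, ?_⟩
    · show (∀ s : ℂ, θ + 1 / 2 < s.re → F (s - 1 / 2) ≠ 0) ↔ _
      rw [hnorm, Pool.Agent.N964.GV.half_shift (k := 2 * Fintype.card G) (by
        have := Fintype.card_pos (α := G)
        omega) (fun m => μ m / ((Real.sqrt m : ℝ) : ℂ)) h0 h1]
      simp_rw [hW]
      have e2 : ∀ x : ℝ, ∑ n ∈ Finset.Icc 1 ⌊x⌋₊, ((Real.sqrt n : ℝ) : ℂ) * (μ n / ((Real.sqrt n : ℝ) : ℂ)) =
          ∑ n ∈ Finset.Icc 1 ⌊x⌋₊, μ n := by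
        intro x
        refine Finset.sum_congr rfl fun n hn => ?_
        rw [Finset.mem_Icc] at hn
        have hn0 : ((Real.sqrt n : ℝ) : ℂ) ≠ 0 := by
          have : 0 < Real.sqrt n := Real.sqrt_pos.2 (by exact_mod_cast hn.1)
          exact_mod_cast this.ne'
        field_simp
      simp_rw [e2]
    · show (∀ s : ℂ, θ + 1 / 2 < s.re → F (s - 1 / 2) ≠ 0) ↔ _
      rw [hnorm]
      simp_rw [hW]

end Pool.Agent.Results.MP_fb225e_nt.MertensBound
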