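import Pool.Agent.N880.QI.All

/-!
# Zeros of `L(E/K, s)`, `E : y² = x³ - x`, for all quadratic extensions `K` of `ℚ(i)`
-/

set_option autoImplicit false

open NumberField IsDedekindDomain

namespace Pool.Agent.Results.MP_fb225e_nt.QuadraticOverGaussian

/-- `K = ℚ(i, √m)`, of degree two over `ℚ(i)`. -/
def IsExt (K : Type) [Field K] [NumberField K] (m : GaussianInt) : Prop :=
  Module.finrank ℚ K = 4 ∧ ∃ i x : K, i ^ 2 = -1 ∧ x ^ 2 = (m.re : K) + (m.im : K) * i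

section
variable {K : Type} [Field K] [NumberField K]

/-- The polynomial `1 - a n^(-s) + ε n^(1-2s)`. -/
noncomputable def poly (a ε : ℤ) (n : ℕ) (s : ℂ) : ℂ :=
  1 - (a : ℂ) * (n : ℂ) ^ (-s) + (ε : ℂ) * (n : ℂ) ^ (1 - 2 * s)

/-- The number of affine points of `y² = x³ - x` over the residue field of `v`. -/
noncomputable def numPoints (v : HeightOneSpectrum (𝓞 K)) : ℕ :=
  Nat.card {p : (𝓞 K ⧸ v.asIdeal) × (𝓞 K ⧸ v.asIdeal) // p.2 ^ 2 = p.1 ^ 3 - p.1}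

/-- The places above `2`. -/
def above2 (K : Type) [Field K] [NumberField K] : Set (HeightOneSpectrum (𝓞 K)) :=
  {v | (2 : 𝓞 K) ∈ v.asIdeal}

/-- Possible Euler factors `(1 - a Nv^(-s) + ε Nv^(1-2s))⁻¹` at the places above `2`: good
reduction `ε = 1`, `|a| ≤ 2 √Nv`, or bad reduction `ε = 0`, `a ∈ {0, 1, -1}`. -/
def Admissible (a ε : HeightOneSpectrum (𝓞 K) → ℤ) : Prop := ∀ v ∈ above2 K,
  (ε v = 1 ∧ a v ^ 2 ≤ 4 * (Ideal.absNorm v.asIdeal : ℤ)) ∨ (ε v = 0 ∧ a v ^ 2 ≤ 1)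

open Classical in
/-- The Euler factor of `E : y² = x³ - x` at `v`. -/
noncomputable def eulerFactor (a ε : HeightOneSpectrum (𝓞 K) → ℤ) (s : ℂ)
    (v : HeightOneSpectrum (𝓞 K)) : ℂ :=
  if v ∈ above2 K then (poly (a v) (ε v) (Ideal.absNorm v.asIdeal) s)⁻¹
  else (poly ((Ideal.absNorm v.asIdeal : ℤ) - (numPoints v : ℤ)) 1 (Ideal.absNorm v.asIdeal) s)⁻¹

/-- `L` is the Euler product, continued analytically to `Re s > 1/2`. -/
structure IsL (a ε : HeightOneSpectrum (𝓞 K) → ℤ) (L : ℂ → ℂ) : Prop where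
  analytic : ∀ s : ℂ, 1 / 2 < s.re → AnalyticAt ℂ L s
  euler : ∀ s : ℂ, 3 / 2 < s.re → HasProd (eulerFactor a ε s) (L s)

end

/-- The number of the zeros of `L` with `Re s > 1/2` and `T < Im s ≤ 2T`, with multiplicity. -/
noncomputable def numZeros (L : ℂ → ℂ) (T : ℝ) : ℕ :=
  ∑ᶠ s ∈ {s : ℂ | 1 / 2 < s.re ∧ T < s.im ∧ s.im ≤ 2 * T}, analyticOrderNatAt L s

/-- The number of the zeros on the line `Re s = 1` with `T < Im s ≤ 2T`, with multiplicity. -/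
noncomputable def numOnLine (L : ℂ → ℂ) (T : ℝ) : ℕ :=
  ∑ᶠ s ∈ {s : ℂ | s.re = 1 ∧ T < s.im ∧ s.im ≤ 2 * T}, analyticOrderNatAt L s

/-- The Gaussian integers of norm at most `Y` which are not squares. -/
def nonsquares (Y : ℝ) : Set GaussianInt := {m | ((Zsqrtd.norm m : ℤ) : ℝ) ≤ Y ∧ ¬ IsSquare m}

/-- The sum of `f m` over all these `m`, with the weight `exp(-π N(m) / X)`. -/
noncomputable def total (X Y : ℝ) (f : GaussianInt → ℕ) : ℝ :=
  ∑ᶠ m ∈ nonsquares Y, Real.exp (-(Real.pi * (((Zsqrtd.norm m : ℤ) : ℝ) / X))) * (f m : ℝ)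

section bridge
open Pool.Agent.N880.QI

lemma finite_nonsquares (Y : ℝ) : (nonsquares Y).Finite := by
  refine (Wsum.finite_nz ⌈Y⌉₊).subset ?_
  rintro m ⟨h, -⟩
  exact h.trans (Nat.le_ceil Y)

lemma exists_hom {K : Type} [Field K] [NumberField K] {m : GaussianInt} (h : IsExt K m) :
    ∃ (ι : GaussianInt →+* 𝓞 K) (α : 𝓞 K), α ^ 2 = ι m := by
  obtain ⟨-, i, x, hi, hx⟩ := h
  have hi1 : IsIntegral ℤ i := by
    refine IsIntegral.of_pow (n := 2) (by norm_num) ?_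
    rw [hi]
    exact (isIntegral_one (R := ℤ) (B := K)).neg
  have hx1 : IsIntegral ℤ x := by
    refine IsIntegral.of_pow (n := 2) (by norm_num) ?_
    rw [hx]
    refine IsIntegral.add ?_ (IsIntegral.mul ?_ hi1)
    · exact isIntegral_algebraMap (R := ℤ) (A := K) (x := m.re)
    · exact isIntegral_algebraMap (R := ℤ) (A := K) (x := m.im)
  obtain ⟨i', hi'⟩ : ∃ i' : 𝓞 K, algebraMap (𝓞 K) K i' = i := ⟨⟨i, hi1⟩, rfl⟩
  obtain ⟨x', hx'⟩ : ∃ x' : 𝓞 K, algebraMap (𝓞 K) K x' = x := ⟨⟨x, hx1⟩, rfl⟩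
  have hinj := FaithfulSMul.algebraMap_injective (𝓞 K) K
  have hii : i' * i' = ((-1 : ℤ) : 𝓞 K) := by
    apply hinj
    rw [map_mul, hi', ← sq, hi]
    simp
  refine ⟨Zsqrtd.lift ⟨i', hii⟩, x', ?_⟩
  apply hinj
  rw [Zsqrtd.lift_apply_apply, map_pow, map_add, map_mul, hx', hi', hx]
  simp

end bridge

/-- **Main theorem.** Let `E : y² = x³ - x`. For every quadratic extension `K = ℚ(i, √m)` of `ℚ(i)`
the function `L(E/K, s)` continues analytically to `Re s > 1/2`. There are `η, X₀ > 0` such that for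
all `X ≥ X₀`, all `T` with `(log X)² ≤ T ≤ X^η` and all `Y ≥ X log X`: of all the zeros (with
multiplicity) with `Re s > 1/2`, `T < Im s ≤ 2T` of the functions `L(E/ℚ(i, √m), s)`, where `m` runs
through the Gaussian integers of norm at most `Y` which are not squares, with the weight
`exp(-π N(m) / X)`, at least 67.25% are on the line `Re s = 1`. -/
theorem result :
    (∀ (K : Type) [Field K] [NumberField K] (m : GaussianInt), ¬ IsSquare m → IsExt K m →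
      ∀ a ε : HeightOneSpectrum (𝓞 K) → ℤ, Admissible a ε → ∃ L : ℂ → ℂ, IsL a ε L) ∧
    ∃ η X₀ : ℝ, 0 < η ∧ 3 ≤ X₀ ∧
    ∀ (K : GaussianInt → Type) [∀ m, Field (K m)] [∀ m, NumberField (K m)]
      (a ε : (m : GaussianInt) → HeightOneSpectrum (𝓞 (K m)) → ℤ) (L : GaussianInt → ℂ → ℂ),
    (∀ m : GaussianInt, ¬ IsSquare m →
      IsExt (K m) m ∧ Admissible (a m) (ε m) ∧ IsL (a m) (ε m) (L m)) →
    ∀ X T Y : ℝ, X₀ ≤ X → (Real.log X) ^ 2 ≤ T → T ≤ X ^ η → X * Real.log X ≤ Y →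
    (nonsquares Y).Finite ∧
    (∀ m ∈ nonsquares Y,
      {s : ℂ | 1 / 2 < s.re ∧ T < s.im ∧ s.im ≤ 2 * T ∧ L m s = 0}.Finite) ∧
    0.6725 * total X Y (fun m => numZeros (L m) T) ≤ total X Y (fun m => numOnLine (L m) T) ∧
    2 / 7 * (X * T * Real.log X) ≤ total X Y (fun m => numZeros (L m) T) := by
  obtain ⟨h1, η, X₀, hη, hX₀, h⟩ := Pool.Agent.N880.QI.qi_all
  refine ⟨fun K _ _ m hm hK a ε ha => ?_, η, X₀, hη, hX₀, ?_⟩
  · obtain ⟨ι, α, hα⟩ := exists_hom hK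
    obtain ⟨F, hF1, hF2⟩ := h1 K hK.1 ι m α hm hα a ε ha
    exact ⟨F, ⟨hF1, hF2⟩⟩
  intro K _ _ a ε L hKL X T Y hX hT1 hT2 hY
  have hfin := finite_nonsquares Y
  have hS : ∀ m : GaussianInt, m ∈ hfin.toFinset ↔
      (Pool.Agent.N880.QI.nz m ≤ Y ∧ ¬ IsSquare m) := by
    intro m
    rw [Set.Finite.mem_toFinset]
    exact Iff.rfl
  obtain ⟨g1, g2, g3⟩ := h K a ε L (fun m hm => ⟨(hKL m hm).1.1, exists_hom (hKL m hm).1,
    (hKL m hm).2.1, (hKL m hm).2.2.analytic, (hKL m hm).2.2.euler⟩) X T Y hX hT1 hT2 hY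
    hfin.toFinset hS
  have htot : ∀ f : GaussianInt → ℕ, total X Y f =
      ∑ m ∈ hfin.toFinset, Pool.Agent.N880.QI.om X m * (f m : ℝ) := by
    intro f
    unfold total
    rw [finsum_mem_eq_finite_toFinset_sum _ hfin]
    rfl
  refine ⟨hfin, fun m hm => ?_, ?_, ?_⟩
  · refine (g1 m (hfin.mem_toFinset.2 hm)).subset ?_
    rintro s ⟨k1, k2, k3, k4⟩
    exact ⟨⟨k1, k2, k3⟩, k4⟩
  · rw [htot, htot]
    exact g2
  · rw [htot]
    exact g3

end Pool.Agent.Results.MP_fb225e_nt.QuadraticOverGaussian
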